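import Mathlib
import Pool.Agent.Y734.Stms3

/-!
# Job GROW of the project Y734/QP
-/

set_option autoImplicit false

namespace Pool.Agent.Y734.GROW

open Pool.Agent.Y734 Pool.Agent.Y734.B
open Finset Filter Topology
open scoped Pointwise

section

variable {Ω : Type} [Field Ω] [Algebra ℚ Ω] (A : Submodule ℚ Ω)

/-- products of elements of `A` are of weight zero -/
theorem lev_prod (Lev : ℕ → Ω → ℝ → Prop) (h1 : Lev 0 1 0)
    (hm : ∀ k l y z a b, Lev k y a → Lev l z b → Lev (k + l) (y * z) (a + b))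
    (hA : ∀ y, y ∈ A → Lev 1 y 0) (n : ℕ) :
    ∀ y ∈ ((A : Set Ω) ^ n), Lev n y 0 := by
  induction n with
  | zero =>
    intro y hy
    rw [pow_zero, Set.mem_one] at hy
    rw [hy]
    exact h1
  | succ n ih =>
    intro y hy
    rw [pow_succ] at hy
    obtain ⟨a, ha, b, hb, rfl⟩ := Set.mem_mul.1 hy
    have := hm n 1 a b 0 0 (ih a ha) (hA b hb)
    rwa [add_zero] at this

theorem pow_span (n : ℕ) : A ^ n = Submodule.span ℚ ((A : Set Ω) ^ n) := by
  conv_lhs => rw [← Submodule.span_eq A]
  rw [Submodule.span_pow]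

theorem exists_basis [FiniteDimensional ℚ A] (x : Ω) (hx : x ≠ 0) (hxA : x ∈ A) (w : ℝ)
    (Lev : ℕ → Ω → ℝ → Prop) (h1 : Lev 0 1 0)
    (hm : ∀ k l y z a b, Lev k y a → Lev l z b → Lev (k + l) (y * z) (a + b))
    (hA : ∀ y, y ∈ A → Lev 1 y 0) (hxw : Lev 1 x w) (k : ℕ) :
    ∃ (s : Finset Ω) (u : Ω → ℝ), LinearIndepOn ℚ id (s : Set Ω) ∧
      Submodule.span ℚ (s : Set Ω) = A ^ k ∧ (∀ y ∈ s, Lev k y (u y)) ∧
      ∑ y ∈ s, u y = w * ∑ j ∈ range k, (Module.finrank ℚ (A ^ j : Submodule ℚ Ω) : ℝ) := by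
  classical
  induction k with
  | zero =>
    refine ⟨{1}, fun _ => 0, ?_, ?_, ?_, ?_⟩
    · rw [coe_singleton]
      exact LinearIndepOn.singleton (v := id) one_ne_zero
    · rw [coe_singleton, pow_zero, Submodule.one_eq_span]
    · intro y hy
      rw [mem_singleton] at hy
      rw [hy]
      exact h1
    · simp
  | succ k ih =>
    obtain ⟨s, u, hs, hsp, hu, hsum⟩ := ih
    have hinj : Function.Injective (fun y : Ω => x * y) := mul_right_injective₀ hx
    set s' : Finset Ω := s.image (fun y => x * y) with hs'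
    have hs'li : LinearIndepOn ℚ id (s' : Set Ω) := by
      rw [hs', coe_image]
      have h2 : LinearIndepOn ℚ (fun y : Ω => x * y) (s : Set Ω) := by
        have h3 := hs.map_injOn (LinearMap.mulLeft ℚ x) (by
          intro a _ b _ hab
          exact hinj hab)
        exact h3
      exact h2.id_image
    have hsA : ∀ y ∈ s, y ∈ A ^ k := fun y hy => by
      rw [← hsp]
      exact Submodule.subset_span hy
    have hs'A : (s' : Set Ω) ⊆ ((A ^ (k + 1) : Submodule ℚ Ω) : Set Ω) := by
      intro y hy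
      rw [hs', coe_image] at hy
      obtain ⟨z, hz, rfl⟩ := hy
      have : x * z ∈ A ^ (k + 1) := by
        rw [pow_succ']
        exact Submodule.mul_mem_mul hxA (hsA z hz)
      exact this
    obtain ⟨b, hbt, hsb, htb, hb⟩ := exists_linearIndepOn_id_extension (K := ℚ) hs'li
      (t := (s' : Set Ω) ∪ (A : Set Ω) ^ (k + 1)) Set.subset_union_left
    have hTA : ((A : Set Ω) ^ (k + 1)) ⊆ ((A ^ (k + 1) : Submodule ℚ Ω) : Set Ω) := by
      rw [pow_span]
      exact Submodule.subset_span
    have hbA : b ⊆ ((A ^ (k + 1) : Submodule ℚ Ω) : Set Ω) :=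
      hbt.trans (Set.union_subset hs'A hTA)
    have hspan : Submodule.span ℚ b = A ^ (k + 1) := by
      apply le_antisymm
      · exact Submodule.span_le.2 hbA
      · rw [pow_span]
        exact Submodule.span_le.2 (Set.subset_union_right.trans htb)
    have hfinA : FiniteDimensional ℚ (A ^ (k + 1) : Submodule ℚ Ω) := by
      have : (A ^ (k + 1)).FG := Submodule.FG.pow (Module.Finite.iff_fg.1 inferInstance) _
      exact Module.Finite.iff_fg.2 this
    have hbfin : b.Finite := by
      have hfs : FiniteDimensional ℚ (Submodule.span ℚ b) := by rw [hspan]; exact hfinA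
      have h3 : LinearIndependent ℚ (fun y : b => (⟨y.1, Submodule.subset_span y.2⟩ :
          Submodule.span ℚ b)) := by
        apply LinearIndependent.of_comp (Submodule.span ℚ b).subtype
        exact hb
      have h4 := h3.finite
      exact Set.toFinite b
    refine ⟨hbfin.toFinset, fun y => if y ∈ s' then w + u (x⁻¹ * y) else 0, ?_, ?_, ?_, ?_⟩
    · rw [Set.Finite.coe_toFinset]
      exact hb
    · rw [Set.Finite.coe_toFinset]
      exact hspan
    · intro y hy
      rw [Set.Finite.mem_toFinset] at hy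
      by_cases hys : y ∈ s'
      · simp only [if_pos hys]
        rw [hs', mem_image] at hys
        obtain ⟨z, hz, rfl⟩ := hys
        rw [inv_mul_cancel_left₀ hx, add_comm k 1]
        exact hm _ _ _ _ _ _ hxw (hu z hz)
      · simp only [if_neg hys]
        rcases hbt hy with h | h
        · exact absurd h hys
        · exact lev_prod A Lev h1 hm hA _ y h
    · have hsub : s' ⊆ hbfin.toFinset := by
        intro y hy
        rw [Set.Finite.mem_toFinset]
        exact hsb hy
      rw [← sum_filter, filter_mem_eq_inter, inter_eq_right.2 hsub, hs',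
        sum_image (fun a _ b _ hab => hinj hab)]
      simp only [inv_mul_cancel_left₀ hx]
      rw [sum_add_distrib, hsum, sum_range_succ, sum_const, nsmul_eq_mul]
      have hcard : s.card = Module.finrank ℚ (A ^ k : Submodule ℚ Ω) := by
        rw [← hsp]
        exact (finrank_span_finset_eq_card hs).symm
      rw [hcard]
      ring

end

/-- the real inequality -/
theorem real_bound (h : ℕ → ℝ) (h0 : h 0 = 1) (C W : ℝ) (hC : ∀ k : ℕ, h k ≤ C * (k + 1))
    (hW : ∀ k : ℕ, 1 ≤ k → W * ∑ j ∈ range k, h j ≤ k * h k) : W ≤ 2 := by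
  by_contra hlt
  push Not at hlt
  set S : ℕ → ℝ := fun k => ∑ j ∈ range k, h j with hS
  have hS1 : S 1 = 1 := by simp [hS, h0]
  have hSs : ∀ k, S (k + 1) = S k + h k := fun k => sum_range_succ _ _
  -- lower bound
  have hlow : ∀ n : ℕ, (1 / 2 + (W - 2) / 2 * ∑ i ∈ range n, 1 / ((i : ℝ) + 3)) *
      (((n : ℝ) + 1) * (n + 2)) ≤ S (n + 1) ∧ 1 / 2 * (((n : ℝ) + 1) * (n + 2)) ≤ S (n + 1) := by
    intro n
    induction n with
    | zero => simp [hS1]
    | succ n ih =>
      obtain ⟨ih1, ih2⟩ := ih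
      have h1 := hW (n + 1) (by omega)
      have h2 := hSs (n + 1)
      change W * S (n + 1) ≤ _ at h1
      have hn : (0 : ℝ) < (n : ℝ) + 1 := by positivity
      push_cast at h1 ⊢
      -- `(n+1) S(n+2) ≥ (n + 1 + W) S(n+1)`
      have h3 : ((n : ℝ) + 1 + W) * S (n + 1) ≤ (n + 1) * S (n + 1 + 1) := by
        rw [h2]; nlinarith
      have hSnn : 0 ≤ S (n + 1) := le_trans (by positivity) ih2
      have e1 : ((n : ℝ) + 1 + W) * S (n + 1) = (n + 3) * S (n + 1) + (W - 2) * S (n + 1) := by
        ring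
      rw [e1] at h3
      constructor
      · rw [sum_range_succ]
        set T := ∑ i ∈ range n, 1 / ((i : ℝ) + 3) with hT
        have h4 : ((n : ℝ) + 1) * ((1 / 2 + (W - 2) / 2 * (T + 1 / ((n : ℝ) + 3))) *
            (((n : ℝ) + 1 + 1) * (n + 1 + 2))) =
            (n + 3) * ((1 / 2 + (W - 2) / 2 * T) * (((n : ℝ) + 1) * (n + 2))) +
              (W - 2) * (1 / 2 * (((n : ℝ) + 1) * (n + 2))) := by
          field_simp
          ring
        have h5 : ((n : ℝ) + 1) * ((1 / 2 + (W - 2) / 2 * (T + 1 / ((n : ℝ) + 3))) *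
            (((n : ℝ) + 1 + 1) * (n + 1 + 2))) ≤ (n + 1) * S (n + 1 + 1) := by
          rw [h4]
          refine le_trans ?_ h3
          have h6 : (0 : ℝ) ≤ (n : ℝ) + 3 := by positivity
          have h7 : 0 ≤ W - 2 := by linarith
          exact add_le_add (mul_le_mul_of_nonneg_left ih1 h6) (mul_le_mul_of_nonneg_left ih2 h7)
        exact le_of_mul_le_mul_left h5 hn
      · have h7 : 0 ≤ (W - 2) * S (n + 1) := mul_nonneg (by linarith) hSnn
        have h8 : ((n : ℝ) + 1) * (1 / 2 * (((n : ℝ) + 1 + 1) * (n + 1 + 2))) ≤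
            (n + 1) * S (n + 1 + 1) := by
          have h9 := mul_le_mul_of_nonneg_left ih2 (show (0 : ℝ) ≤ (n : ℝ) + 3 by positivity)
          nlinarith
        exact le_of_mul_le_mul_left h8 hn
  have hup : ∀ n : ℕ, S n ≤ C * (n * (n + 1)) / 2 := by
    intro n
    induction n with
    | zero => simp [hS]
    | succ n ih =>
      rw [hSs]
      have := hC n
      push_cast
      nlinarith
  have hlim := Real.tendsto_sum_range_one_div_nat_succ_atTop
  have hd : 0 < (W - 2) / 2 := by linarith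
  obtain ⟨n, hn⟩ := (hlim.eventually (eventually_gt_atTop ((C / 2) / ((W - 2) / 2) + 3 / 2))).and
    (eventually_ge_atTop 2) |>.exists
  obtain ⟨hn1, hn2⟩ := hn
  obtain ⟨m, rfl⟩ := Nat.exists_eq_add_of_le' hn2
  have e2 : ∑ i ∈ range (m + 2), 1 / ((i : ℝ) + 1) = 3 / 2 + ∑ i ∈ range m, 1 / ((i : ℝ) + 3) := by
    rw [sum_range_succ', sum_range_succ']
    push_cast
    have : ∀ i : ℕ, 1 / ((i : ℝ) + 1 + 1 + 1) = 1 / ((i : ℝ) + 3) := fun i => by ring_nf
    simp only [this]
    norm_num
    ring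
  rw [e2] at hn1
  have h1 := (hlow m).1
  have h2 := hup (m + 1)
  push_cast at h2
  have h3 : (1 / 2 + (W - 2) / 2 * ∑ i ∈ range m, 1 / ((i : ℝ) + 3)) *
      (((m : ℝ) + 1) * (m + 2)) ≤ C / 2 * (((m : ℝ) + 1) * (m + 2)) := by
    refine h1.trans (h2.trans (le_of_eq ?_))
    ring
  have h4 := le_of_mul_le_mul_right h3 (by positivity)
  have h5 : C / 2 < (W - 2) / 2 * ∑ i ∈ range m, 1 / ((i : ℝ) + 3) := by
    have h6 : C / 2 / ((W - 2) / 2) < ∑ i ∈ range m, 1 / ((i : ℝ) + 3) := by linarith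
    rwa [div_lt_iff₀' hd] at h6
  linarith

theorem grow : GrowStmt := by
  intro V _ Ω _ _ A _ x hx hxA w Lev h1 hm hxw hA hsst C hC
  have hb := fun v k => exists_basis A (x v) (hx v) (hxA v) (w v) (Lev v) (h1 v) (hm v)
    (hA v) (hxw v) k
  refine real_bound (fun k => (Module.finrank ℚ (A ^ k : Submodule ℚ Ω) : ℝ)) ?_ C _ hC ?_
  · have h0 : (A ^ 0 : Submodule ℚ Ω) = Submodule.span ℚ {1} := by
      rw [pow_zero, Submodule.one_eq_span]
    have h00 : Module.finrank ℚ (A ^ 0 : Submodule ℚ Ω) = 1 := by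
      rw [h0, finrank_span_singleton one_ne_zero]
    change (Module.finrank ℚ (A ^ 0 : Submodule ℚ Ω) : ℝ) = 1
    rw [h00, Nat.cast_one]
  · intro k hk
    choose s u hs hsp hu hsum using fun v => hb v k
    have h2 := hsst k (fun v => s v) (fun v y => (y : Ω)) (fun v y => u v y) hk ?_ ?_ ?_ ?_
    · have h3 : ∀ v, ∑ i : s v, u v i = w v * ∑ j ∈ range k,
          (Module.finrank ℚ (A ^ j : Submodule ℚ Ω) : ℝ) := by
        intro v
        rw [← hsum v]
        exact sum_coe_sort (s v) (u v)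
      rw [sum_congr rfl fun v _ => h3 v, ← sum_mul] at h2
      exact h2
    · intro v
      rw [Fintype.card_coe, ← hsp v]
      exact (finrank_span_finset_eq_card (hs v)).symm
    · intro v
      exact hs v
    · intro v i
      rw [← hsp v]
      exact Submodule.subset_span i.2
    · intro v i
      exact hu v i i.2

end Pool.Agent.Y734.GROW
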